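import Pool.Agent.V5helper27.WM.Op

open MeasureTheory ProbabilityTheory unitInterval Measure Filter Topology
open scoped ENNReal NNReal InnerProductSpace

namespace Pool.Agent.V5helper27.WM

variable {𝕜 : Type*} [RCLike 𝕜]

variable {Z : ℕ → I → 𝕜} (hZ : IsGaussSeq Z) {r : ℝ≥0∞}

/-- An operator on a Hilbert space, not attaining its norm, with a maximizing sequence that is not
weakly null. -/
structure Bad {H F : Type*} [NormedAddCommGroup H] [InnerProductSpace 𝕜 H] [NormedAddCommGroup F]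
    [NormedSpace 𝕜 F] (S : H →L[𝕜] F) (M : ℝ) (x : ℕ → H) : Prop where
  pos : 0 < M
  lt : ∀ b, b ≠ 0 → ‖S b‖ < M * ‖b‖
  unit : ∀ n, ‖x n‖ = 1
  maxi : Tendsto (fun n => ‖S (x n)‖) atTop (𝓝 M)
  weak : ∃ (e : H) (s : 𝕜), s ≠ 0 ∧ ∀ n, ⟪e, x n⟫_𝕜 = s

lemma NN_zero_right (hr0 : r ≠ 0) (c : 𝕜) : NN r c 0 = ‖c‖ := by
  unfold NN
  have h : (fun z : 𝕜 => c + ((0 : ℝ) : 𝕜) * z) = fun _ => c := by
    funext z; simp
  rw [h, eLpNorm_const _ hr0 (IsProbabilityMeasure.ne_zero _)]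
  simp

/-- the weights -/
noncomputable def wt (β : ℝ) (n : ℕ) : ℝ := β * ((n + 1 : ℝ) / (n + 2))

lemma wt_nonneg {β : ℝ} (hβ : 0 < β) (n : ℕ) : 0 ≤ wt β n := by
  unfold wt; positivity

lemma wt_lt {β : ℝ} (hβ : 0 < β) (n : ℕ) : wt β n < β := by
  unfold wt
  have : ((n : ℝ) + 1) / (n + 2) < 1 := by
    rw [div_lt_one (by positivity)]; linarith
  nlinarith

lemma tendsto_wt (β : ℝ) : Tendsto (wt β) atTop (𝓝 β) := by
  have h : Tendsto (fun n : ℕ => ((n : ℝ) + 1) / (n + 2)) atTop (𝓝 1) := by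
    have h1 : Tendsto (fun n : ℕ => 1 - 1 / (((n + 1 : ℕ) : ℝ) + 1)) atTop (𝓝 (1 - 0)) :=
      (tendsto_one_div_add_atTop_nhds_zero_nat.comp (tendsto_add_atTop_nat 1)).const_sub 1
    rw [sub_zero] at h1
    refine h1.congr fun n => ?_
    push_cast
    field_simp
    ring
  have h2 := h.const_mul β
  rw [mul_one] at h2
  exact h2

lemma isWeight_wt {β : ℝ} (hβ : 0 < β) : IsWeight (wt β) β (fun n => n + 1) :=
  ⟨wt_nonneg hβ, fun n => (wt_lt hβ n).le, add_left_injective 1⟩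

/-- the maximizing sequence -/
noncomputable def xs (𝕜 : Type*) [RCLike 𝕜] (s t : ℝ) (n : ℕ) : Ell 𝕜 :=
  lp.single 2 0 (s : 𝕜) + lp.single 2 (n + 1) (t : 𝕜)

lemma xs_zero (s t : ℝ) (n : ℕ) : (xs 𝕜 s t n : ℕ → 𝕜) 0 = (s : 𝕜) := by
  rw [xs, lp.coeFn_add, Pi.add_apply, lp.single_apply_self, lp.single_apply_ne _ _ _ (by omega),
    add_zero]

lemma xs_succ (s t : ℝ) (n m : ℕ) : (xs 𝕜 s t n : ℕ → 𝕜) (m + 1) = if m = n then (t : 𝕜) else 0 := by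
  rw [xs, lp.coeFn_add, Pi.add_apply, lp.single_apply_ne _ _ _ (by omega), zero_add]
  by_cases h : m = n
  · subst h
    rw [lp.single_apply_self, if_pos rfl]
  · rw [lp.single_apply_ne _ _ _ (by omega), if_neg h]

lemma norm_sq_split (b : Ell 𝕜) : ‖b‖ ^ 2 = ‖b 0‖ ^ 2 + ∑' n, ‖b (n + 1)‖ ^ 2 := by
  rw [← (hasSum_sq b).tsum_eq, (hasSum_sq b).summable.tsum_eq_zero_add]

theorem exists_bad [Fact (1 ≤ r)] (h2r : 2 < r) (hr : r ≠ ∞) :
    ∃ (S : Ell 𝕜 →L[𝕜] X 𝕜 r) (M : ℝ) (x : ℕ → Ell 𝕜), Bad S M x := by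
  obtain ⟨Z, hZ⟩ := exists_gaussSeq 𝕜
  have hr0 : r ≠ 0 := (lt_trans zero_lt_two h2r).ne'
  have h1r : 1 < r := lt_trans (by norm_num) h2r
  have hN := NN_zero_one_pos (𝕜 := 𝕜) hr0 hr
  set β : ℝ := (NN r (0 : 𝕜) 1)⁻¹ with hβdef
  have hβ0 : 0 < β := by positivity
  have hβ : β * NN r (0 : 𝕜) 1 = 1 := inv_mul_cancel₀ hN.ne'
  obtain ⟨s, t, hs, ht, hst, hgt, hmax⟩ := exists_max hZ h2r hr hβ0 hβ
  have hw := isWeight_wt hβ0
  refine ⟨Rop hZ hr 1 hw, NN r (s : 𝕜) (β * t), xs 𝕜 s t, ⟨by linarith, ?_, ?_, ?_, ?_⟩⟩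
  · intro b hb
    rw [norm_Rop, one_mul]
    set τ : ℝ := √(∑' n, ‖b (n + 1)‖ ^ 2) with hτ
    have hsum : Summable (fun n => ‖b (n + 1)‖ ^ 2) :=
      (hasSum_sq b).summable.comp_injective (add_left_injective 1)
    have hτ2 : τ ^ 2 = ∑' n, ‖b (n + 1)‖ ^ 2 := Real.sq_sqrt (tsum_nonneg fun _ => by positivity)
    have hbn : ‖b‖ = √(‖b 0‖ ^ 2 + τ ^ 2) := by
      rw [hτ2, ← norm_sq_split, Real.sqrt_sq (norm_nonneg _)]
    have hτ0 : 0 ≤ τ := Real.sqrt_nonneg _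
    rcases hτ0.lt_or_eq with hpos | hzero
    · have hlt : √(∑' n, ‖((wt β n : ℝ) : 𝕜) * b (n + 1)‖ ^ 2) < β * τ := by
        rw [Real.sqrt_lt' (by positivity), mul_pow, hτ2, ← tsum_mul_left]
        have hex : ∃ n, b (n + 1) ≠ 0 := by
          by_contra hcon
          push Not at hcon
          have : τ = 0 := by
            rw [hτ]; simp [hcon]
          linarith
        obtain ⟨n, hn⟩ := hex
        refine Summable.tsum_lt_tsum (i := n) (hw.term_le b) ?_ (hw.summable b) (hsum.mul_left _)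
        rw [norm_mul, RCLike.norm_ofReal, abs_of_nonneg (wt_nonneg hβ0 n), mul_pow]
        have h1 : 0 < ‖b (n + 1)‖ := norm_pos_iff.2 hn
        have h2 := wt_lt hβ0 n
        have h3 := wt_nonneg hβ0 n
        have h4 : wt β n ^ 2 < β ^ 2 := by nlinarith
        exact mul_lt_mul_of_pos_right h4 (by positivity)
      refine (NN_strictMono hZ h1r hr (b 0) (Real.sqrt_nonneg _) hlt).trans_le ?_
      rw [← NN_norm hZ hr (b 0) (by positivity), hbn]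
      exact hmax _ _ (norm_nonneg _) hτ0
    · have h0 : ∑' n, ‖((wt β n : ℝ) : 𝕜) * b (n + 1)‖ ^ 2 ≤ 0 := by
        have h1 : ∑' n, ‖b (n + 1)‖ ^ 2 = 0 := by rw [← hτ2, ← hzero]; ring
        calc ∑' n, ‖((wt β n : ℝ) : 𝕜) * b (n + 1)‖ ^ 2
            ≤ ∑' n, β ^ 2 * ‖b (n + 1)‖ ^ 2 :=
              (hw.summable b).tsum_le_tsum (hw.term_le b) (hsum.mul_left _)
          _ = 0 := by rw [tsum_mul_left, h1, mul_zero]
      rw [Real.sqrt_eq_zero_of_nonpos h0, NN_zero_right hr0, hbn, ← hzero]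
      have h2 : ‖b 0‖ = ‖b‖ := by rw [hbn, ← hzero]; simp
      have h3 : 0 < ‖b 0‖ := by rw [h2]; exact norm_pos_iff.2 hb
      have h4 : √(‖b 0‖ ^ 2 + 0 ^ 2) = ‖b 0‖ := by
        rw [zero_pow two_ne_zero, add_zero, Real.sqrt_sq h3.le]
      rw [h4]
      nlinarith
  · intro n
    have h : ‖xs 𝕜 s t n‖ ^ 2 = 1 := by
      rw [norm_sq_split, xs_zero]
      simp only [xs_succ]
      rw [tsum_eq_single n (fun m hm => by rw [if_neg hm]; simp), if_pos rfl, RCLike.norm_ofReal,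
        RCLike.norm_ofReal, sq_abs, sq_abs, hst]
    rw [← one_pow 2, pow_left_inj₀ (norm_nonneg _) zero_le_one two_ne_zero] at h
    exact h
  · have h1 : ∀ n, ‖Rop hZ hr 1 hw (xs 𝕜 s t n)‖ =
        ‖((s : 𝕜) • one 𝕜 r + ((wt β n * t : ℝ) : 𝕜) • zet hZ hr 0 : X 𝕜 r)‖ := by
      intro n
      rw [norm_Rop, one_mul, xs_zero, norm_lin_real]
      congr 1
      simp only [xs_succ]
      rw [tsum_eq_single n (fun m hm => by rw [if_neg hm]; simp), if_pos rfl, norm_mul,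
        RCLike.norm_ofReal, RCLike.norm_ofReal, ← abs_mul, sq_abs, Real.sqrt_sq_eq_abs]
    have h2 : NN r (s : 𝕜) (β * t) =
        ‖((s : 𝕜) • one 𝕜 r + ((β * t : ℝ) : 𝕜) • zet hZ hr 0 : X 𝕜 r)‖ := by
      rw [norm_lin_real, abs_of_nonneg (by positivity)]
    simp only [h1]
    rw [h2]
    have h3 : Tendsto (fun n => ((wt β n * t : ℝ) : 𝕜)) atTop (𝓝 ((β * t : ℝ) : 𝕜)) :=
      (RCLike.continuous_ofReal.tendsto _).comp ((tendsto_wt β).mul_const t)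
    exact ((h3.smul_const (zet hZ hr 0)).const_add ((s : 𝕜) • one 𝕜 r)).norm
  · refine ⟨lp.single 2 0 (1 : 𝕜), (s : 𝕜), ?_, fun n => ?_⟩
    · rw [Ne, RCLike.ofReal_eq_zero]; exact hs.ne'
    · rw [lp.inner_single_left, xs_zero]
      simp

/-- Isometric embedding of `ℓ₂` into `L_r`. -/
theorem exists_isometry [Fact (1 ≤ r)] (hr : r ≠ ∞) :
    ∃ V : Ell 𝕜 →L[𝕜] X 𝕜 r, ∀ b, ‖V b‖ = ‖b‖ := by
  obtain ⟨Z, hZ⟩ := exists_gaussSeq 𝕜
  have hr0 : r ≠ 0 := (lt_of_lt_of_le zero_lt_one (Fact.out : 1 ≤ r)).ne'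
  have hN := NN_zero_one_pos (𝕜 := 𝕜) hr0 hr
  have hw : IsWeight (fun _ => (NN r (0 : 𝕜) 1)⁻¹) (NN r (0 : 𝕜) 1)⁻¹ (fun n => n) :=
    ⟨fun _ => by positivity, fun _ => le_rfl, fun _ _ h => h⟩
  refine ⟨Rop hZ hr 0 hw, fun b => ?_⟩
  rw [norm_Rop, zero_mul, NN_zero, abs_of_nonneg (Real.sqrt_nonneg _)]
  have h1 : ∀ n, ‖(((NN r (0 : 𝕜) 1)⁻¹ : ℝ) : 𝕜) * b n‖ ^ 2 = ((NN r (0 : 𝕜) 1)⁻¹) ^ 2 * ‖b n‖ ^ 2 := by
    intro n
    rw [norm_mul, RCLike.norm_ofReal, mul_pow, sq_abs]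
  simp only [h1]
  rw [tsum_mul_left, (hasSum_sq b).tsum_eq, ← mul_pow, Real.sqrt_sq (by positivity),
    mul_comm, ← mul_assoc, mul_inv_cancel₀ hN.ne', one_mul]

end Pool.Agent.V5helper27.WM
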