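import Pool.Agent.V5helper27.WM.Bad

open MeasureTheory ProbabilityTheory Measure Filter Topology
open scoped ENNReal NNReal InnerProductSpace

namespace Pool.Agent.V5helper27.WM

variable {𝕜 : Type*} [RCLike 𝕜]
variable {Ω : Type*} [MeasurableSpace Ω] {μ : Measure Ω} {p r : ℝ≥0∞}

section star

lemma lpstar_add (f g : Lp 𝕜 p μ) : star (f + g) = star f + star g := by
  apply Lp.ext
  filter_upwards [Lp.coeFn_star (f + g), Lp.coeFn_add f g, Lp.coeFn_star f, Lp.coeFn_star g,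
    Lp.coeFn_add (star f) (star g)] with ω h1 h2 h3 h4 h5
  rw [h1, h5, Pi.add_apply, h3, h4, Pi.star_apply, h2, Pi.add_apply, star_add, Pi.star_apply,
    Pi.star_apply]

lemma lpstar_smul (c : 𝕜) (f : Lp 𝕜 p μ) : star (c • f) = star c • star f := by
  apply Lp.ext
  filter_upwards [Lp.coeFn_star (c • f), Lp.coeFn_smul c f, Lp.coeFn_star f,
    Lp.coeFn_smul (star c) (star f)] with ω h1 h2 h3 h4
  rw [h1, h4, Pi.smul_apply, h3, Pi.star_apply, h2, Pi.smul_apply, star_smul, Pi.star_apply]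

lemma lpstar_norm (f : Lp 𝕜 p μ) : ‖star f‖ = ‖f‖ := by
  rw [Lp.norm_def, Lp.norm_def, eLpNorm_congr_ae (Lp.coeFn_star f), eLpNorm_star]

end star

variable [Fact (1 ≤ r)] [Fact (1 ≤ p)] [r.HolderConjugate p]

/-- the duality pairing -/
noncomputable def pair (𝕜 : Type*) [RCLike 𝕜] {Ω : Type*} [MeasurableSpace Ω] (μ : Measure Ω)
    (r p : ℝ≥0∞) [Fact (1 ≤ r)] [Fact (1 ≤ p)] [r.HolderConjugate p] :
    Lp 𝕜 r μ →L[𝕜] Lp 𝕜 p μ →L[𝕜] 𝕜 :=
  (ContinuousLinearMap.mul 𝕜 𝕜).lpPairing μ r p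

lemma pair_eq (g : Lp 𝕜 r μ) (f : Lp 𝕜 p μ) : pair 𝕜 μ r p g f = ∫ ω, g ω * f ω ∂μ := by
  rw [pair, ContinuousLinearMap.lpPairing_eq_integral]
  rfl

lemma norm_pair_le (g : Lp 𝕜 r μ) (f : Lp 𝕜 p μ) : ‖pair 𝕜 μ r p g f‖ ≤ ‖g‖ * ‖f‖ := by
  have h1 : pair 𝕜 μ r p g f = ∫ ω, ((ContinuousLinearMap.mul 𝕜 𝕜).holder 1 g f) ω ∂μ := by
    rw [pair_eq]
    apply integral_congr_ae
    filter_upwards [(ContinuousLinearMap.mul 𝕜 𝕜).coeFn_holder (r := 1) g f] with ω h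
    rw [h]
    rfl
  rw [h1]
  refine (norm_integral_le_integral_norm _).trans ?_
  have h2 := L1.norm_eq_integral_norm ((ContinuousLinearMap.mul 𝕜 𝕜).holder 1 g f)
  rw [← h2]
  refine ((ContinuousLinearMap.mul 𝕜 𝕜).norm_holder_apply_apply_le g f).trans ?_
  have h3 : ‖ContinuousLinearMap.mul 𝕜 𝕜‖ ≤ 1 := ContinuousLinearMap.opNorm_mul_le 𝕜 𝕜
  calc ‖ContinuousLinearMap.mul 𝕜 𝕜‖ * ‖g‖ * ‖f‖ ≤ 1 * ‖g‖ * ‖f‖ := by gcongr
    _ = ‖g‖ * ‖f‖ := by ring

/-- Norming functionals. -/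
theorem exists_norming (h1r : 1 < r) (hr : r ≠ ∞) (h1p : 1 < p) (hp : p ≠ ∞) (g : Lp 𝕜 r μ)
    (hg : g ≠ 0) : ∃ h : Lp 𝕜 p μ, ‖h‖ = 1 ∧ pair 𝕜 μ r p g h = ((‖g‖ : ℝ) : 𝕜) := by
  have hr0 : r ≠ 0 := (lt_trans zero_lt_one h1r).ne'
  have hp0 : p ≠ 0 := (lt_trans zero_lt_one h1p).ne'
  set ρ := r.toReal with hρ
  set q := p.toReal with hq
  have hρ1 : 1 < ρ := by
    rw [hρ, ← ENNReal.toReal_one]
    exact (ENNReal.toReal_lt_toReal ENNReal.one_ne_top hr).2 h1r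
  have hq1 : 1 < q := by
    rw [hq, ← ENNReal.toReal_one]
    exact (ENNReal.toReal_lt_toReal ENNReal.one_ne_top hp).2 h1p
  have hconj : ρ⁻¹ + q⁻¹ = 1 := by
    have h := ENNReal.holderConjugate_iff.1 (inferInstance : r.HolderConjugate p)
    have h2 := congrArg ENNReal.toReal h
    rw [ENNReal.toReal_add (ENNReal.inv_ne_top.2 hr0) (ENNReal.inv_ne_top.2 hp0),
      ENNReal.toReal_inv, ENNReal.toReal_inv, ENNReal.toReal_one] at h2
    exact h2
  have hmul : (ρ - 1) * q = ρ := by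
    have : ρ ≠ 0 := by positivity
    have : q ≠ 0 := by positivity
    field_simp at hconj
    linarith
  have hgpos : 0 < ‖g‖ := norm_pos_iff.2 hg
  set h₀ : Ω → 𝕜 := fun ω => ((‖g ω‖ ^ (ρ - 2) : ℝ) : 𝕜) * star (g ω) with hh₀
  have hmeas : AEStronglyMeasurable h₀ μ := by
    have hgm : AEStronglyMeasurable (fun ω => g ω) μ := Lp.aestronglyMeasurable g
    have h1 : AEStronglyMeasurable (fun ω => (‖g ω‖ ^ (ρ - 2) : ℝ)) μ :=
      (hgm.norm.aemeasurable.pow_const _).aestronglyMeasurable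
    exact (RCLike.continuous_ofReal.comp_aestronglyMeasurable h1).mul
      (continuous_star.comp_aestronglyMeasurable hgm)
  have hnorm : ∀ ω, ‖h₀ ω‖ = ‖g ω‖ ^ (ρ - 1) := by
    intro ω
    rw [hh₀]
    simp only
    rw [norm_mul, RCLike.norm_ofReal, norm_star, abs_of_nonneg (by positivity)]
    rcases (norm_nonneg (g ω)).eq_or_lt with h | h
    · rw [← h, mul_zero, Real.zero_rpow (by linarith)]
    · nth_rewrite 2 [← Real.rpow_one ‖g ω‖]
      rw [← Real.rpow_add h]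
      congr 1
      ring
  have hnormq : ∀ ω, ‖h₀ ω‖ ^ q = ‖g ω‖ ^ ρ := by
    intro ω
    rw [hnorm, ← Real.rpow_mul (norm_nonneg _), hmul]
  have hint := integrable_rpow hr0 hr g
  have hmem : MemLp h₀ p μ := by
    rw [← integrable_norm_rpow_iff hmeas hp0 hp, ← hq]
    simp only [hnormq]
    exact hint
  set H : Lp 𝕜 p μ := hmem.toLp h₀ with hH
  have hHc : (H : Ω → 𝕜) =ᵐ[μ] h₀ := hmem.coeFn_toLp
  have hHn : ‖H‖ ^ q = ‖g‖ ^ ρ := by
    rw [norm_rpow_eq_integral hp0 hp H, norm_rpow_eq_integral hr0 hr g]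
    apply integral_congr_ae
    filter_upwards [hHc] with ω h
    rw [h]
    exact hnormq ω
  have hHn' : ‖H‖ = ‖g‖ ^ (ρ - 1) := by
    have h1 : (‖g‖ ^ (ρ - 1)) ^ q = ‖g‖ ^ ρ := by rw [← Real.rpow_mul (norm_nonneg _), hmul]
    rw [← h1] at hHn
    exact (Real.rpow_left_inj (norm_nonneg _) (by positivity) (by positivity)).1 hHn
  have hpair : pair 𝕜 μ r p g H = ((‖g‖ ^ ρ : ℝ) : 𝕜) := by
    rw [pair_eq, norm_rpow_eq_integral hr0 hr g, ← integral_ofReal]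
    apply integral_congr_ae
    filter_upwards [hHc] with ω h
    rw [h, hh₀]
    simp only
    have e1 : g ω * (((‖g ω‖ ^ (ρ - 2) : ℝ) : 𝕜) * star (g ω)) =
        ((‖g ω‖ ^ (ρ - 2) : ℝ) : 𝕜) * (g ω * star (g ω)) := by ring
    have e2 : g ω * star (g ω) = ((‖g ω‖ ^ 2 : ℝ) : 𝕜) := by
      rw [RCLike.star_def, RCLike.mul_conj, RCLike.ofReal_pow]
    rw [e1, e2, ← RCLike.ofReal_mul]
    congr 1
    rcases (norm_nonneg (g ω)).eq_or_lt with h | h
    · have hr' : r.toReal ≠ 0 := by rw [← hρ]; linarith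
      rw [← h, zero_pow two_ne_zero, mul_zero, Real.zero_rpow hr']
    · rw [← Real.rpow_natCast, ← Real.rpow_add h]
      congr 1
      push_cast
      ring
  have hHpos : 0 < ‖H‖ := by rw [hHn']; positivity
  refine ⟨((‖H‖⁻¹ : ℝ) : 𝕜) • H, ?_, ?_⟩
  · rw [norm_smul, RCLike.norm_ofReal, abs_of_pos (by positivity), inv_mul_cancel₀ hHpos.ne']
  · rw [map_smul, hpair, smul_eq_mul, ← RCLike.ofReal_mul, hHn']
    congr 1
    rw [← Real.rpow_neg (norm_nonneg _), ← Real.rpow_add hgpos]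
    have : -(ρ - 1) + ρ = 1 := by ring
    rw [this, Real.rpow_one]

variable {H : Type*} [NormedAddCommGroup H] [InnerProductSpace 𝕜 H] [CompleteSpace H]

/-- The adjoint of an operator from a Hilbert space to `L_r`. -/
noncomputable def adj (S : H →L[𝕜] Lp 𝕜 r μ) : Lp 𝕜 p μ →L[𝕜] H :=
  LinearMap.mkContinuous
    { toFun := fun f => (InnerProductSpace.toDual 𝕜 H).symm
        (((pair 𝕜 μ r p).flip (star f)).comp S)
      map_add' := by
        intro f g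
        rw [lpstar_add, map_add, ContinuousLinearMap.add_comp, map_add]
      map_smul' := by
        intro c f
        rw [lpstar_smul, map_smul, ContinuousLinearMap.smul_comp, map_smulₛₗ, RCLike.star_def,
          RCLike.conj_conj, RingHom.id_apply] }
    ‖S‖ (by
      intro f
      change ‖(InnerProductSpace.toDual 𝕜 H).symm
        (((pair 𝕜 μ r p).flip (star f)).comp S)‖ ≤ _
      rw [LinearIsometryEquiv.norm_map]
      refine ContinuousLinearMap.opNorm_le_bound _ (by positivity) fun b => ?_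
      rw [ContinuousLinearMap.comp_apply, ContinuousLinearMap.flip_apply]
      refine (norm_pair_le _ _).trans ?_
      rw [lpstar_norm]
      calc ‖S b‖ * ‖f‖ ≤ (‖S‖ * ‖b‖) * ‖f‖ := by gcongr; exact S.le_opNorm b
        _ = ‖S‖ * ‖f‖ * ‖b‖ := by ring)

lemma adj_inner (S : H →L[𝕜] Lp 𝕜 r μ) (f : Lp 𝕜 p μ) (b : H) :
    ⟪adj S f, b⟫_𝕜 = pair 𝕜 μ r p (S b) (star f) := by
  change ⟪(InnerProductSpace.toDual 𝕜 H).symm (((pair 𝕜 μ r p).flip (star f)).comp S), b⟫_𝕜 = _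
  rw [InnerProductSpace.toDual_symm_apply]
  rfl

end Pool.Agent.V5helper27.WM
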