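import Mathlib

open MeasureTheory ProbabilityTheory unitInterval Measure
open scoped ENNReal NNReal RealInnerProductSpace

namespace Pool.Agent.V5helper27.WM

variable {𝕜 : Type*} [RCLike 𝕜]

/-- The standard Gaussian measure on the scalar field. -/
noncomputable abbrev gam (𝕜 : Type*) [RCLike 𝕜] : Measure 𝕜 := stdGaussian 𝕜

/-- An independent sequence of standard Gaussian scalars on the unit interval. -/
structure IsGaussSeq (Z : ℕ → I → 𝕜) : Prop where
  meas : ∀ n, Measurable (Z n)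
  indep : iIndepFun Z (volume : Measure I)
  law : ∀ n, (volume : Measure I).map (Z n) = gam 𝕜

theorem exists_gaussSeq (𝕜 : Type*) [RCLike 𝕜] : ∃ Z : ℕ → I → 𝕜, IsGaussSeq Z := by
  obtain ⟨f, hf, hmap⟩ := (infinitePi (fun _ : ℕ => gam 𝕜)).exists_measurable_map_eq
  have hm : ∀ n, Measurable (fun ω => f ω n) := fun n => (measurable_pi_apply n).comp hf
  have hlaw : ∀ n, (volume : Measure I).map (fun ω => f ω n) = gam 𝕜 := by
    intro n
    have h := infinitePi_map_eval (fun _ : ℕ => gam 𝕜) n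
    rw [← hmap, Measure.map_map (measurable_pi_apply n) hf] at h
    exact h
  refine ⟨fun n ω => f ω n, hm, ?_, hlaw⟩
  rw [iIndepFun_iff_map_fun_eq_infinitePi_map hm]
  have : (fun i => (volume : Measure I).map (fun ω => f ω i)) = fun _ => gam 𝕜 := funext hlaw
  rw [this]
  exact hmap

lemma inner_mul_right_eq (a z t : 𝕜) : ⟪a * z, t⟫ = ⟪z, (starRingEnd 𝕜 a) * t⟫ := by
  change RCLike.re (inner 𝕜 (a * z) t) = RCLike.re (inner 𝕜 z (starRingEnd 𝕜 a * t))
  rw [RCLike.inner_apply, RCLike.inner_apply, map_mul (starRingEnd 𝕜)]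
  congr 1
  ring

lemma charFun_map_mul_gam (a : 𝕜) (t : 𝕜) :
    charFun ((gam 𝕜).map (fun z => a * z)) t = Complex.exp (-(‖a‖ ^ 2 * ‖t‖ ^ 2) / 2) := by
  have h : charFun ((gam 𝕜).map (fun z => a * z)) t = charFun (gam 𝕜) (starRingEnd 𝕜 a * t) := by
    rw [charFun_apply, charFun_apply, integral_map]
    · simp only [inner_mul_right_eq]
    · fun_prop
    · fun_prop
  rw [h, charFun_stdGaussian, norm_mul, RCLike.norm_conj]
  push_cast
  ring_nf


lemma law_sum {Z : ℕ → I → 𝕜} (hZ : IsGaussSeq Z) (F : Finset ℕ) (a : ℕ → 𝕜) :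
    (volume : Measure I).map (fun ω => ∑ n ∈ F, a n * Z n ω) =
      (gam 𝕜).map (fun z => ((√(∑ n ∈ F, ‖a n‖ ^ 2) : ℝ) : 𝕜) * z) := by
  have hm := hZ.meas
  have hsum : Measurable (fun ω => ∑ n ∈ F, a n * Z n ω) := by fun_prop
  have : IsProbabilityMeasure ((volume : Measure I).map (fun ω => ∑ n ∈ F, a n * Z n ω)) :=
    Measure.isProbabilityMeasure_map hsum.aemeasurable
  have : IsProbabilityMeasure ((gam 𝕜).map
      (fun z => ((√(∑ n ∈ F, ‖a n‖ ^ 2) : ℝ) : 𝕜) * z)) :=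
    Measure.isProbabilityMeasure_map (by fun_prop)
  apply Measure.ext_of_charFun
  have hind : iIndepFun (fun n ω => a n * Z n ω) (volume : Measure I) :=
    hZ.indep.comp (fun n z => a n * z) (fun n => by fun_prop)
  rw [iIndepFun.charFun_map_fun_finsetSum_eq_prod (X := fun n ω => a n * Z n ω)
    (fun i _ => by fun_prop) (hind.restrict _)]
  funext t
  rw [Finset.prod_apply, charFun_map_mul_gam]
  have h1 : ∀ n ∈ F, charFun ((volume : Measure I).map (fun ω => a n * Z n ω)) t =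
      Complex.exp (-(‖a n‖ ^ 2 * ‖t‖ ^ 2) / 2) := by
    intro n _
    rw [← charFun_map_mul_gam, ← hZ.law n, Measure.map_map (by fun_prop) (hm n)]
    rfl
  rw [Finset.prod_congr rfl h1, ← Complex.exp_sum]
  congr 1
  rw [RCLike.norm_ofReal, abs_of_nonneg (Real.sqrt_nonneg _)]
  have h2 : ((√(∑ n ∈ F, ‖a n‖ ^ 2) : ℝ) : ℂ) ^ 2 = ∑ n ∈ F, (‖a n‖ : ℂ) ^ 2 := by
    rw [← Complex.ofReal_pow, Real.sq_sqrt (Finset.sum_nonneg fun _ _ => sq_nonneg _)]
    push_cast
    rfl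
  rw [h2, Finset.sum_mul, ← Finset.sum_neg_distrib, Finset.sum_div]

/-- Moments of all orders. -/
lemma memLp_gam (r : ℝ≥0∞) (hr : r ≠ ∞) : MemLp (fun z : 𝕜 => z) r (gam 𝕜) :=
  IsGaussian.memLp_id _ r hr

lemma IsGaussSeq.memLp {Z : ℕ → I → 𝕜} (hZ : IsGaussSeq Z) {r : ℝ≥0∞} (hr : r ≠ ∞) (n : ℕ) :
    MemLp (Z n) r (volume : Measure I) := by
  have h := memLp_gam (𝕜 := 𝕜) r hr
  rw [← hZ.law n] at h
  exact (memLp_map_measure_iff (by fun_prop) (hZ.meas n).aemeasurable).1 h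

end Pool.Agent.V5helper27.WM
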