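import Mathlib

open MeasureTheory
open scoped ENNReal NNReal

namespace Pool.Agent.V5helper27.WM

variable {𝕜 : Type*} [RCLike 𝕜]

lemma rpow_combo_le {r : ℝ} (hr : 1 < r) (x y : 𝕜) {a b : ℝ} (ha : 0 < a) (hb : 0 < b)
    (hab : a + b = 1) : ‖a • x + b • y‖ ^ r ≤ a * ‖x‖ ^ r + b * ‖y‖ ^ r := by
  have h1 : ‖a • x + b • y‖ ≤ a * ‖x‖ + b * ‖y‖ := by
    refine (norm_add_le _ _).trans ?_
    rw [norm_smul, norm_smul, Real.norm_of_nonneg ha.le, Real.norm_of_nonneg hb.le]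
  have h2 := (strictConvexOn_rpow hr).convexOn.2 (Set.mem_Ici.2 (norm_nonneg x))
    (Set.mem_Ici.2 (norm_nonneg y)) ha.le hb.le hab
  simp only [smul_eq_mul] at h2
  exact (Real.rpow_le_rpow (norm_nonneg _) h1 (by linarith)).trans h2

lemma rpow_combo_lt {r : ℝ} (hr : 1 < r) {x y : 𝕜} (hxy : x ≠ y) {a b : ℝ} (ha : 0 < a)
    (hb : 0 < b) (hab : a + b = 1) : ‖a • x + b • y‖ ^ r < a * ‖x‖ ^ r + b * ‖y‖ ^ r := by
  by_cases h : ‖x‖ = ‖y‖
  · have h1 : ‖a • x + b • y‖ < ‖y‖ := norm_combo_lt_of_ne h.le le_rfl hxy ha hb hab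
    rw [h]
    have h2 : a * ‖y‖ ^ r + b * ‖y‖ ^ r = ‖y‖ ^ r := by rw [← add_mul, hab, one_mul]
    rw [h2]
    exact Real.rpow_lt_rpow (norm_nonneg _) h1 (by linarith)
  · have h1 : ‖a • x + b • y‖ ≤ a * ‖x‖ + b * ‖y‖ := by
      refine (norm_add_le _ _).trans ?_
      rw [norm_smul, norm_smul, Real.norm_of_nonneg ha.le, Real.norm_of_nonneg hb.le]
    have h2 := (strictConvexOn_rpow hr).2 (Set.mem_Ici.2 (norm_nonneg x))
      (Set.mem_Ici.2 (norm_nonneg y)) h ha hb hab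
    simp only [smul_eq_mul] at h2
    exact (Real.rpow_le_rpow (norm_nonneg _) h1 (by linarith)).trans_lt h2

variable {Ω : Type*} [MeasurableSpace Ω] {μ : Measure Ω}

lemma norm_rpow_eq_integral {r : ℝ≥0∞} (hr0 : r ≠ 0) (hr : r ≠ ∞) (f : Lp 𝕜 r μ) :
    ‖f‖ ^ r.toReal = ∫ ω, ‖f ω‖ ^ r.toReal ∂μ := by
  have hpos : 0 < r.toReal := ENNReal.toReal_pos hr0 hr
  rw [Lp.norm_def, (Lp.memLp f).eLpNorm_eq_integral_rpow_norm hr0 hr,
    ENNReal.toReal_ofReal (by positivity), ← Real.rpow_mul (by positivity),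
    inv_mul_cancel₀ hpos.ne', Real.rpow_one]

lemma integrable_rpow {r : ℝ≥0∞} (hr0 : r ≠ 0) (hr : r ≠ ∞) (f : Lp 𝕜 r μ) :
    Integrable (fun ω => ‖f ω‖ ^ r.toReal) μ :=
  (Lp.memLp f).integrable_norm_rpow hr0 hr

/-- `L_r` is strictly convex for `1 < r < ∞`. -/
theorem Lp_combo_lt {r : ℝ≥0∞} (h1 : 1 < r) (hr : r ≠ ∞) [Fact (1 ≤ r)] {x y : Lp 𝕜 r μ} {M : ℝ}
    (hx : ‖x‖ ≤ M) (hy : ‖y‖ ≤ M) (hxy : x ≠ y) {a b : ℝ} (ha : 0 < a) (hb : 0 < b)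
    (hab : a + b = 1) : ‖a • x + b • y‖ < M := by
  have hr0 : r ≠ 0 := (lt_trans zero_lt_one h1).ne'
  have hr1 : 1 < r.toReal := by
    rw [← ENNReal.toReal_one]
    exact (ENNReal.toReal_lt_toReal ENNReal.one_ne_top hr).2 h1
  have hM : 0 ≤ M := (norm_nonneg _).trans hx
  by_contra hcon
  rw [not_lt] at hcon
  set z : Lp 𝕜 r μ := a • x + b • y with hz
  have hzc : (z : Ω → 𝕜) =ᵐ[μ] fun ω => a • x ω + b • y ω := by
    filter_upwards [Lp.coeFn_add (a • x) (b • y), Lp.coeFn_smul a x, Lp.coeFn_smul b y]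
      with ω e1 e2 e3
    rw [hz, e1, Pi.add_apply, e2, e3, Pi.smul_apply, Pi.smul_apply]
  have ix := norm_rpow_eq_integral hr0 hr x
  have iy := norm_rpow_eq_integral hr0 hr y
  have iz := norm_rpow_eq_integral hr0 hr z
  have jx := integrable_rpow hr0 hr x
  have jy := integrable_rpow hr0 hr y
  have jz := integrable_rpow hr0 hr z
  have jg : Integrable (fun ω => a * ‖x ω‖ ^ r.toReal + b * ‖y ω‖ ^ r.toReal) μ :=
    (jx.const_mul a).add (jy.const_mul b)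
  have hle : (fun ω => ‖z ω‖ ^ r.toReal) ≤ᵐ[μ]
      fun ω => a * ‖x ω‖ ^ r.toReal + b * ‖y ω‖ ^ r.toReal := by
    filter_upwards [hzc] with ω e
    rw [e]
    exact rpow_combo_le hr1 _ _ ha hb hab
  have hint : ∫ ω, (a * ‖x ω‖ ^ r.toReal + b * ‖y ω‖ ^ r.toReal) ∂μ =
      a * ‖x‖ ^ r.toReal + b * ‖y‖ ^ r.toReal := by
    rw [integral_add (jx.const_mul a) (jy.const_mul b), integral_const_mul, integral_const_mul,
      ix, iy]
  have hle2 : a * ‖x‖ ^ r.toReal + b * ‖y‖ ^ r.toReal ≤ M ^ r.toReal := by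
    have e1 : ‖x‖ ^ r.toReal ≤ M ^ r.toReal := Real.rpow_le_rpow (norm_nonneg _) hx (by linarith)
    have e2 : ‖y‖ ^ r.toReal ≤ M ^ r.toReal := Real.rpow_le_rpow (norm_nonneg _) hy (by linarith)
    calc a * ‖x‖ ^ r.toReal + b * ‖y‖ ^ r.toReal ≤ a * M ^ r.toReal + b * M ^ r.toReal := by
          gcongr
      _ = M ^ r.toReal := by rw [← add_mul, hab, one_mul]
  have hge : M ^ r.toReal ≤ ‖z‖ ^ r.toReal := Real.rpow_le_rpow hM hcon (by linarith)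
  have heq : ∫ ω, ‖z ω‖ ^ r.toReal ∂μ =
      ∫ ω, (a * ‖x ω‖ ^ r.toReal + b * ‖y ω‖ ^ r.toReal) ∂μ := by
    apply le_antisymm (integral_mono_ae jz jg hle)
    rw [hint, ← iz]
    exact hle2.trans hge
  have hae := (integral_eq_iff_of_ae_le jz jg hle).1 heq
  apply hxy
  apply Lp.ext
  filter_upwards [hae, hzc] with ω e1 e2
  by_contra hne
  have := rpow_combo_lt hr1 hne ha hb hab
  rw [e2] at e1
  exact this.ne e1

end Pool.Agent.V5helper27.WM
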