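import Pool.Agent.V5helper27.WM.Lr
import Pool.Agent.V5helper27.WM.Strict

open MeasureTheory ProbabilityTheory unitInterval Measure
open scoped ENNReal NNReal RealInnerProductSpace

namespace Pool.Agent.V5helper27.WM

variable {𝕜 : Type*} [RCLike 𝕜]

lemma map_re_gam : (gam 𝕜).map (fun w => RCLike.re w) = gaussianReal 0 1 := by
  have : IsProbabilityMeasure ((gam 𝕜).map (fun w => RCLike.re w)) :=
    Measure.isProbabilityMeasure_map (by fun_prop)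
  apply Measure.ext_of_charFun
  funext t
  have h : charFun ((gam 𝕜).map (fun w => RCLike.re w)) t = charFun (gam 𝕜) ((t : ℝ) : 𝕜) := by
    rw [charFun_apply, charFun_apply, integral_map (by fun_prop) (by fun_prop)]
    congr 1
    funext z
    have e : (⟪RCLike.re z, t⟫ : ℝ) = ⟪z, ((t : ℝ) : 𝕜)⟫ := by
      change _ = RCLike.re (inner 𝕜 z ((t : ℝ) : 𝕜))
      rw [RCLike.inner_apply]
      simp [mul_comm]
    rw [e]
  rw [h, charFun_stdGaussian, charFun_gaussianReal, RCLike.norm_ofReal]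
  congr 1
  rw [← Complex.ofReal_pow, sq_abs]
  simp [neg_div]

lemma not_ae_norm_le (C : ℝ) : ¬ (∀ᵐ w ∂(gam 𝕜), ‖w‖ ≤ C) := by
  intro h
  have h1 : ∀ᵐ w ∂(gam 𝕜), RCLike.re w ≤ C := by
    filter_upwards [h] with w hw
    exact (RCLike.re_le_norm w).trans hw
  have h2 : ∀ᵐ x ∂(gaussianReal 0 1), x ≤ C := by
    rw [← map_re_gam (𝕜 := 𝕜), ae_map_iff (by fun_prop) measurableSet_Iic]
    exact h1
  have h3 : ∀ᵐ x ∂(volume : Measure ℝ), x ≤ C :=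
    (gaussianReal_absolutelyContinuous' 0 (v := 1) one_ne_zero).ae_le h2
  rw [ae_iff] at h3
  have : {a : ℝ | ¬ a ≤ C} = Set.Ioi C := by ext; simp
  rw [this, Real.volume_Ioi] at h3
  exact absurd h3 (by simp)

lemma NN_rpow {r : ℝ≥0∞} (hr0 : r ≠ 0) (hr : r ≠ ∞) (c : 𝕜) (s : ℝ) :
    ∫⁻ z, ‖c + (s : 𝕜) * z‖ₑ ^ r.toReal ∂(gam 𝕜) = ENNReal.ofReal (NN r c s ^ r.toReal) := by
  have hpos : 0 < r.toReal := ENNReal.toReal_pos hr0 hr
  have hmem : MemLp (fun z : 𝕜 => c + (s : 𝕜) * z) r (gam 𝕜) :=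
    (memLp_const c).add ((memLp_gam r hr).const_mul _)
  have h1 : ENNReal.ofReal (NN r c s) = eLpNorm (fun z : 𝕜 => c + (s : 𝕜) * z) r (gam 𝕜) :=
    ENNReal.ofReal_toReal hmem.eLpNorm_ne_top
  have hn : 0 ≤ NN r c s := ENNReal.toReal_nonneg
  rw [← ENNReal.ofReal_rpow_of_nonneg hn hpos.le, h1,
    eLpNorm_eq_lintegral_rpow_enorm_toReal hr0 hr, ← ENNReal.rpow_mul, one_div,
    inv_mul_cancel₀ hpos.ne', ENNReal.rpow_one]

variable {Z : ℕ → I → 𝕜} (hZ : IsGaussSeq Z) {r : ℝ≥0∞} (hr : r ≠ ∞)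

lemma NN_zero (s : ℝ) : NN r (0 : 𝕜) s = |s| * NN r (0 : 𝕜) 1 := by
  unfold NN
  have h : (fun z : 𝕜 => (0 : 𝕜) + (s : 𝕜) * z) = (s : 𝕜) • (fun z : 𝕜 => (0 : 𝕜) + ((1 : ℝ) : 𝕜) * z) := by
    funext z
    simp
  rw [h, eLpNorm_const_smul, ENNReal.toReal_mul]
  simp

lemma NN_zero_one_pos (hr0 : r ≠ 0) (hr : r ≠ ∞) : 0 < NN r (0 : 𝕜) 1 := by
  have hmem : MemLp (fun z : 𝕜 => (0 : 𝕜) + ((1 : ℝ) : 𝕜) * z) r (gam 𝕜) :=
    (memLp_const (0 : 𝕜)).add ((memLp_gam r hr).const_mul _)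
  apply ENNReal.toReal_pos _ hmem.eLpNorm_ne_top
  intro h2
  rw [eLpNorm_eq_zero_iff hmem.1 hr0] at h2
  apply not_ae_norm_le (𝕜 := 𝕜) 0
  filter_upwards [h2] with z hz
  simp only [zero_add, RCLike.ofReal_one, one_mul, Pi.zero_apply] at hz
  rw [hz, norm_zero]

end Pool.Agent.V5helper27.WM
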