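import Pool.Agent.V5helper27.WM.Key

open MeasureTheory ProbabilityTheory unitInterval Measure
open scoped ENNReal NNReal RealInnerProductSpace

namespace Pool.Agent.V5helper27.WM

variable {𝕜 : Type*} [RCLike 𝕜]

variable {Z : ℕ → I → 𝕜} (hZ : IsGaussSeq Z) {r : ℝ≥0∞}

lemma enorm_rpow (z : 𝕜) {p : ℝ} (hp : 0 ≤ p) : ‖z‖ₑ ^ p = ENNReal.ofReal (‖z‖ ^ p) := by
  rw [← ofReal_norm, ENNReal.ofReal_rpow_of_nonneg (norm_nonneg _) hp]

lemma integral_rpow_gam (hr0 : r ≠ 0) (hr : r ≠ ∞) :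
    ∫ w, ‖w‖ ^ r.toReal ∂(gam 𝕜) = NN r (0 : 𝕜) 1 ^ r.toReal := by
  have h := NN_rpow (𝕜 := 𝕜) hr0 hr 0 1
  simp only [zero_add, RCLike.ofReal_one, one_mul] at h
  rw [integral_eq_lintegral_of_nonneg_ae (Filter.Eventually.of_forall fun w => by positivity)
    ((memLp_gam r hr).integrable_norm_rpow hr0 hr).1]
  simp only [← enorm_rpow _ (ENNReal.toReal_nonneg (a := r))]
  rw [h, ENNReal.toReal_ofReal]
  have : 0 ≤ NN r (0 : 𝕜) 1 := ENNReal.toReal_nonneg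
  positivity

include hZ in
lemma joint_law : (volume : Measure I).map (fun ω => (Z 1 ω, Z 0 ω)) = (gam 𝕜).prod (gam 𝕜) := by
  have h := hZ.indep.indepFun (i := 1) (j := 0) one_ne_zero
  rw [h.map_prod_eq_prod_map_map (hZ.meas 1).aemeasurable (hZ.meas 0).aemeasurable, hZ.law,
    hZ.law]

include hZ in
lemma double_integral (hr0 : r ≠ 0) (hr : r ≠ ∞) {β : ℝ} (hβ0 : 0 < β)
    (hβ : β * NN r (0 : 𝕜) 1 = 1) :
    ∫⁻ w, ∫⁻ z, ‖(β : 𝕜) * w + (β : 𝕜) * z‖ₑ ^ r.toReal ∂(gam 𝕜) ∂(gam 𝕜) =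
      ENNReal.ofReal (√2 ^ r.toReal) := by
  have hm0 := hZ.meas 0
  have hm1 := hZ.meas 1
  have h1 : ∫⁻ w, ∫⁻ z, ‖(β : 𝕜) * w + (β : 𝕜) * z‖ₑ ^ r.toReal ∂(gam 𝕜) ∂(gam 𝕜) =
      ∫⁻ p, ‖(β : 𝕜) * p.1 + (β : 𝕜) * p.2‖ₑ ^ r.toReal ∂((gam 𝕜).prod (gam 𝕜)) := by
    rw [lintegral_prod _ (by fun_prop)]
  rw [h1, ← joint_law hZ, lintegral_map (by fun_prop) (by fun_prop)]
  have h2 : ∫⁻ ω, ‖(β : 𝕜) * Z 1 ω + (β : 𝕜) * Z 0 ω‖ₑ ^ r.toReal ∂(volume : Measure I) =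
      ∫⁻ y, ‖y‖ₑ ^ r.toReal
        ∂((volume : Measure I).map (fun ω => ∑ n ∈ Finset.range 2, (β : 𝕜) * Z n ω)) := by
    have hms : Measurable (fun ω => ∑ n ∈ Finset.range 2, (β : 𝕜) * Z n ω) :=
      Finset.measurable_sum _ fun n _ => (hZ.meas n).const_mul _
    rw [lintegral_map (by fun_prop) hms]
    apply lintegral_congr
    intro ω
    rw [Finset.sum_range_succ, Finset.sum_range_one, add_comm]
  rw [h2, law_sum hZ (Finset.range 2) (fun _ => (β : 𝕜)), lintegral_map (by fun_prop) (by fun_prop)]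
  have h3 := NN_rpow (𝕜 := 𝕜) hr0 hr 0 √(∑ n ∈ Finset.range 2, ‖(β : 𝕜)‖ ^ 2)
  simp only [zero_add] at h3
  rw [h3, NN_zero]
  congr 2
  rw [Finset.sum_const, Finset.card_range, RCLike.norm_ofReal, sq_abs, nsmul_eq_mul,
    Real.sqrt_mul (by positivity), Real.sqrt_sq hβ0.le, abs_mul, abs_of_pos hβ0,
    abs_of_nonneg (Real.sqrt_nonneg _), mul_assoc, hβ]
  norm_num

/-- Strict convexity estimate. -/
lemma integral_lt (h2r : 2 < r) (hr : r ≠ ∞) {β : ℝ} (hβ0 : 0 < β)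
    (hβ : β * NN r (0 : 𝕜) 1 = 1) :
    Integrable (fun w : 𝕜 => (‖(β : 𝕜) * w‖ ^ 2 + 1) ^ (r.toReal / 2)) (gam 𝕜) ∧
    ∫ w, (‖(β : 𝕜) * w‖ ^ 2 + 1) ^ (r.toReal / 2) ∂(gam 𝕜) < 2 ^ (r.toReal / 2) := by
  have hr0 : r ≠ 0 := (lt_trans zero_lt_two h2r).ne'
  have hρ : 2 < r.toReal := by
    have := (ENNReal.toReal_lt_toReal (by norm_num) hr).2 h2r
    simpa using this
  have hκ : 1 < r.toReal / 2 := by linarith
  set κ : ℝ := r.toReal / 2 with hκdef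
  have hXκ : ∀ w : 𝕜, (‖(β : 𝕜) * w‖ ^ 2) ^ κ = β ^ r.toReal * ‖w‖ ^ r.toReal := by
    intro w
    have hn : 0 ≤ ‖(β : 𝕜) * w‖ := norm_nonneg _
    rw [← Real.rpow_natCast ‖(β : 𝕜) * w‖ 2, ← Real.rpow_mul hn, hκdef]
    have : ((2 : ℕ) : ℝ) * (r.toReal / 2) = r.toReal := by push_cast; ring
    rw [this, norm_mul, RCLike.norm_ofReal, abs_of_pos hβ0, Real.mul_rpow hβ0.le (norm_nonneg _)]
  have hle : ∀ w : 𝕜, (‖(β : 𝕜) * w‖ ^ 2 + 1) ^ κ ≤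
      2 ^ κ * (1 / 2 * (β ^ r.toReal * ‖w‖ ^ r.toReal) + 1 / 2) := by
    intro w
    have h := rpow_combo_le (𝕜 := ℝ) hκ (‖(β : 𝕜) * w‖ ^ 2) 1 (a := 1 / 2) (b := 1 / 2)
      (by norm_num) (by norm_num) (by norm_num)
    rw [Real.norm_of_nonneg (by positivity), norm_one, Real.one_rpow,
      Real.norm_of_nonneg (by positivity), hXκ] at h
    have e : (‖(β : 𝕜) * w‖ ^ 2 + 1) = 2 * ((1 / 2 : ℝ) • ‖(β : 𝕜) * w‖ ^ 2 + (1 / 2 : ℝ) • (1 : ℝ)) := by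
      simp only [smul_eq_mul]; ring
    rw [e, Real.mul_rpow (by norm_num) (by positivity)]
    have h2 : (0 : ℝ) < 2 ^ κ := by positivity
    calc (2 : ℝ) ^ κ * ((1 / 2 : ℝ) • ‖(β : 𝕜) * w‖ ^ 2 + (1 / 2 : ℝ) • (1 : ℝ)) ^ κ
        ≤ 2 ^ κ * (1 / 2 * (β ^ r.toReal * ‖w‖ ^ r.toReal) + 1 / 2 * 1) := by gcongr
      _ = _ := by ring
  have hig : Integrable (fun w : 𝕜 => 2 ^ κ * (1 / 2 * (β ^ r.toReal * ‖w‖ ^ r.toReal) + 1 / 2))
      (gam 𝕜) := by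
    have := (memLp_gam (𝕜 := 𝕜) r hr).integrable_norm_rpow hr0 hr
    exact (((this.const_mul _).const_mul _).add (integrable_const _)).const_mul _
  have hif : Integrable (fun w : 𝕜 => (‖(β : 𝕜) * w‖ ^ 2 + 1) ^ κ) (gam 𝕜) := by
    have hκ0 : 0 ≤ κ := by linarith
    refine hig.mono' (by fun_prop (disch := assumption)) (Filter.Eventually.of_forall fun w => ?_)
    rw [Real.norm_of_nonneg (by positivity)]
    exact hle w
  refine ⟨hif, ?_⟩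
  have hgint : ∫ w : 𝕜, 2 ^ κ * (1 / 2 * (β ^ r.toReal * ‖w‖ ^ r.toReal) + 1 / 2) ∂(gam 𝕜) =
      2 ^ κ := by
    have hi := (memLp_gam (𝕜 := 𝕜) r hr).integrable_norm_rpow hr0 hr
    rw [integral_const_mul, integral_add ((hi.const_mul _).const_mul _) (integrable_const _),
      integral_const_mul, integral_const_mul, integral_rpow_gam hr0 hr,
      ← Real.mul_rpow hβ0.le (NN_zero_one_pos hr0 hr).le, hβ]
    simp
    norm_num
  by_contra hcon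
  rw [not_lt] at hcon
  have heq : ∫ w, (‖(β : 𝕜) * w‖ ^ 2 + 1) ^ κ ∂(gam 𝕜) =
      ∫ w : 𝕜, 2 ^ κ * (1 / 2 * (β ^ r.toReal * ‖w‖ ^ r.toReal) + 1 / 2) ∂(gam 𝕜) := by
    apply le_antisymm (integral_mono_ae hif hig (Filter.Eventually.of_forall hle))
    rw [hgint]
    exact hcon
  have hae := (integral_eq_iff_of_ae_le hif hig (Filter.Eventually.of_forall hle)).1 heq
  apply not_ae_norm_le (𝕜 := 𝕜) (1 / β)
  filter_upwards [hae] with w hw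
  have hX : ‖(β : 𝕜) * w‖ ^ 2 = 1 := by
    by_contra hne
    have h := rpow_combo_lt (𝕜 := ℝ) hκ hne (a := 1 / 2) (b := 1 / 2)
      (by norm_num) (by norm_num) (by norm_num)
    rw [Real.norm_of_nonneg (by positivity), norm_one, Real.one_rpow,
      Real.norm_of_nonneg (by positivity), hXκ] at h
    have e : (‖(β : 𝕜) * w‖ ^ 2 + 1) = 2 * ((1 / 2 : ℝ) • ‖(β : 𝕜) * w‖ ^ 2 + (1 / 2 : ℝ) • (1 : ℝ)) := by
      simp only [smul_eq_mul]; ring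
    rw [e, Real.mul_rpow (by norm_num) (by positivity)] at hw
    have h2 : (0 : ℝ) < 2 ^ κ := by positivity
    have h3 := mul_left_cancel₀ h2.ne' hw
    rw [h3] at h
    linarith
  rw [norm_mul, RCLike.norm_ofReal, abs_of_pos hβ0, ← one_pow 2,
    pow_left_inj₀ (by positivity) (by norm_num) (by norm_num)] at hX
  rw [le_div_iff₀ hβ0, mul_comm]
  exact hX.le

include hZ in
/-- For `r > 2` there is a non-trivial mixture of the constant and the Gaussian of large norm. -/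
theorem exists_NN_gt [Fact (1 ≤ r)] (h2r : 2 < r) (hr : r ≠ ∞) {β : ℝ}
    (hβ : β * NN r (0 : 𝕜) 1 = 1) :
    ∃ s : ℝ, 0 ≤ s ∧ √(s ^ 2 + 1) < NN r (s : 𝕜) β := by
  have hr0 : r ≠ 0 := (lt_trans zero_lt_two h2r).ne'
  have hβ0 : 0 < β := by
    have h1 := NN_zero_one_pos (𝕜 := 𝕜) hr0 hr
    by_contra h
    rw [not_lt] at h
    nlinarith
  by_contra hcon
  push Not at hcon
  have hc : ∀ c : 𝕜, NN r c β ≤ √(‖c‖ ^ 2 + 1) := by
    intro c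
    rw [← NN_norm hZ hr c hβ0.le]
    exact hcon ‖c‖ (norm_nonneg _)
  have hpos : 0 < r.toReal := ENNReal.toReal_pos hr0 hr
  obtain ⟨hi, hlt⟩ := integral_lt (𝕜 := 𝕜) h2r hr hβ0 hβ
  have h1 := double_integral hZ hr0 hr hβ0 hβ
  have h2 : ∫⁻ w, ∫⁻ z, ‖(β : 𝕜) * w + (β : 𝕜) * z‖ₑ ^ r.toReal ∂(gam 𝕜) ∂(gam 𝕜) ≤
      ∫⁻ w, ENNReal.ofReal ((‖(β : 𝕜) * w‖ ^ 2 + 1) ^ (r.toReal / 2)) ∂(gam 𝕜) := by
    apply lintegral_mono
    intro w
    simp only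
    rw [NN_rpow hr0 hr]
    apply ENNReal.ofReal_le_ofReal
    have h3 : 0 ≤ NN r ((β : 𝕜) * w) β := ENNReal.toReal_nonneg
    refine (Real.rpow_le_rpow h3 (hc _) hpos.le).trans (le_of_eq ?_)
    rw [Real.sqrt_eq_rpow, ← Real.rpow_mul (by positivity)]
    congr 1
    ring
  rw [h1, ← ofReal_integral_eq_lintegral_ofReal hi
    (Filter.Eventually.of_forall fun w => by positivity),
    ENNReal.ofReal_le_ofReal_iff (integral_nonneg fun w => by positivity)] at h2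
  have h4 : √2 ^ r.toReal = 2 ^ (r.toReal / 2) := by
    rw [Real.sqrt_eq_rpow, ← Real.rpow_mul (by positivity)]
    congr 1
    ring
  rw [h4] at h2
  linarith

end Pool.Agent.V5helper27.WM
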