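import Pool.Agent.V5helper27.WM.Gauss

open MeasureTheory ProbabilityTheory unitInterval Measure
open scoped ENNReal NNReal RealInnerProductSpace

namespace Pool.Agent.V5helper27.WM

variable {𝕜 : Type*} [RCLike 𝕜]

/-- The space `L_r[0,1]`. -/
noncomputable abbrev X (𝕜 : Type*) [RCLike 𝕜] (r : ℝ≥0∞) := Lp 𝕜 r (volume : Measure I)

/-- the constant function one -/
noncomputable def one (𝕜 : Type*) [RCLike 𝕜] (r : ℝ≥0∞) : X 𝕜 r :=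
  (memLp_const (1 : 𝕜)).toLp (fun _ => (1 : 𝕜))

/-- the Gaussian functions as elements of `L_r` -/
noncomputable def zet {Z : ℕ → I → 𝕜} (hZ : IsGaussSeq Z) {r : ℝ≥0∞} (hr : r ≠ ∞) (n : ℕ) :
    X 𝕜 r := (hZ.memLp hr n).toLp (Z n)

/-- the function `N(c,ρ) = ‖c + ρ g‖_r` -/
noncomputable def NN (r : ℝ≥0∞) (c : 𝕜) (ρ : ℝ) : ℝ :=
  (eLpNorm (fun z : 𝕜 => c + (ρ : 𝕜) * z) r (gam 𝕜)).toReal

variable {Z : ℕ → I → 𝕜} (hZ : IsGaussSeq Z) {r : ℝ≥0∞} (hr : r ≠ ∞)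

lemma coeFn_lin (c : 𝕜) (F : Finset ℕ) (a : ℕ → 𝕜) :
    ((c • one 𝕜 r + ∑ n ∈ F, a n • zet hZ hr n : X 𝕜 r) : I → 𝕜) =ᵐ[volume]
      fun ω => c + ∑ n ∈ F, a n * Z n ω := by
  induction F using Finset.induction_on with
  | empty =>
    rw [Finset.sum_empty, add_zero]
    filter_upwards [Lp.coeFn_smul c (one 𝕜 r),
      (memLp_const (1 : 𝕜)).coeFn_toLp (p := r) (μ := (volume : Measure I))] with ω h1 h2
    rw [h1, Pi.smul_apply, one, h2]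
    simp
  | insert m F hm ih =>
    rw [Finset.sum_insert hm]
    have e : c • one 𝕜 r + (a m • zet hZ hr m + ∑ n ∈ F, a n • zet hZ hr n) =
        a m • zet hZ hr m + (c • one 𝕜 r + ∑ n ∈ F, a n • zet hZ hr n) := by abel
    rw [e]
    filter_upwards [ih, Lp.coeFn_add (a m • zet hZ hr m)
      (c • one 𝕜 r + ∑ n ∈ F, a n • zet hZ hr n), Lp.coeFn_smul (a m) (zet hZ hr m),
      (hZ.memLp hr m).coeFn_toLp] with ω h1 h2 h3 h4
    rw [h2, Pi.add_apply, h1, h3, Pi.smul_apply, zet, h4, Finset.sum_insert hm, smul_eq_mul]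
    ring

lemma norm_lin (c : 𝕜) (F : Finset ℕ) (a : ℕ → 𝕜) :
    ‖(c • one 𝕜 r + ∑ n ∈ F, a n • zet hZ hr n : X 𝕜 r)‖ =
      NN r c √(∑ n ∈ F, ‖a n‖ ^ 2) := by
  have hm := hZ.meas
  rw [Lp.norm_def, eLpNorm_congr_ae (coeFn_lin hZ hr c F a), NN]
  congr 1
  have h1 : eLpNorm (fun ω => c + ∑ n ∈ F, a n * Z n ω) r (volume : Measure I) =
      eLpNorm (fun z => c + z) r ((volume : Measure I).map (fun ω => ∑ n ∈ F, a n * Z n ω)) := by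
    rw [eLpNorm_map_measure (by fun_prop) (by fun_prop)]
    rfl
  rw [h1, law_sum hZ, eLpNorm_map_measure (by fun_prop) (by fun_prop)]
  rfl

lemma norm_lin_one (c s : 𝕜) (n : ℕ) :
    ‖(c • one 𝕜 r + s • zet hZ hr n : X 𝕜 r)‖ = NN r c ‖s‖ := by
  have h := norm_lin hZ hr c {n} (fun _ => s)
  rw [Finset.sum_singleton, Finset.sum_singleton, Real.sqrt_sq (norm_nonneg _)] at h
  exact h

lemma norm_lin_real (c : 𝕜) (ρ : ℝ) (n : ℕ) :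
    ‖(c • one 𝕜 r + (ρ : 𝕜) • zet hZ hr n : X 𝕜 r)‖ = NN r c |ρ| := by
  rw [norm_lin_one, RCLike.norm_ofReal]

include hZ hr in
lemma NN_norm [Fact (1 ≤ r)] (c : 𝕜) {ρ : ℝ} (hρ : 0 ≤ ρ) : NN r ((‖c‖ : ℝ) : 𝕜) ρ = NN r c ρ := by
  by_cases hc : c = 0
  · subst hc; simp
  · have hc' : ((‖c‖ : ℝ) : 𝕜) ≠ 0 := by
      rw [Ne, RCLike.ofReal_eq_zero, norm_eq_zero]; exact hc
    set u : 𝕜 := c / ((‖c‖ : ℝ) : 𝕜) with hu
    have hun : ‖u‖ = 1 := by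
      rw [hu, norm_div, RCLike.norm_ofReal, abs_norm, div_self (norm_ne_zero_iff.2 hc)]
    have h1 := norm_lin_one hZ hr ((‖c‖ : ℝ) : 𝕜) (ρ : 𝕜) 0
    have h2 := norm_lin_one hZ hr c (u * (ρ : 𝕜)) 0
    have h3 : (c • one 𝕜 r + (u * (ρ : 𝕜)) • zet hZ hr 0 : X 𝕜 r) =
        u • (((‖c‖ : ℝ) : 𝕜) • one 𝕜 r + (ρ : 𝕜) • zet hZ hr 0) := by
      rw [smul_add, smul_smul, smul_smul]
      congr 2
      rw [hu]
      field_simp
    rw [h3, norm_smul, hun, one_mul, h1, norm_mul, hun, one_mul] at h2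
    rw [RCLike.norm_ofReal, abs_of_nonneg hρ] at h2
    exact h2

end Pool.Agent.V5helper27.WM
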