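import Pool.Agent.V5helper27.WM.Opt

open MeasureTheory ProbabilityTheory unitInterval Measure
open scoped ENNReal NNReal RealInnerProductSpace

namespace Pool.Agent.V5helper27.WM

variable {𝕜 : Type*} [RCLike 𝕜]

/-- the sequence space `ℓ₂` -/
abbrev Ell (𝕜 : Type*) [RCLike 𝕜] := lp (fun _ : ℕ => 𝕜) 2

lemma hasSum_sq (b : Ell 𝕜) : HasSum (fun n => ‖b n‖ ^ 2) (‖b‖ ^ 2) := by
  have h := lp.hasSum_norm (E := fun _ : ℕ => 𝕜) (p := 2) (by norm_num) b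
  have h2 : (2 : ℝ≥0∞).toReal = ((2 : ℕ) : ℝ) := by norm_num
  rw [h2] at h
  simpa only [Real.rpow_natCast] using h

variable {Z : ℕ → I → 𝕜} (hZ : IsGaussSeq Z) {r : ℝ≥0∞}

lemma norm_sum_zet (hr : r ≠ ∞) (F : Finset ℕ) (a : ℕ → 𝕜) :
    ‖(∑ n ∈ F, a n • zet hZ hr n : X 𝕜 r)‖ = √(∑ n ∈ F, ‖a n‖ ^ 2) * NN r (0 : 𝕜) 1 := by
  have h := norm_lin hZ hr 0 F a
  rw [zero_smul, zero_add, NN_zero, abs_of_nonneg (Real.sqrt_nonneg _)] at h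
  exact h

lemma summable_zet [Fact (1 ≤ r)] (hr : r ≠ ∞) {a : ℕ → 𝕜} (ha : Summable (fun n => ‖a n‖ ^ 2)) :
    Summable (fun n => a n • zet hZ hr n : ℕ → X 𝕜 r) := by
  rw [summable_iff_vanishing_norm]
  intro ε hε
  have hr0 : r ≠ 0 := (lt_of_lt_of_le zero_lt_one (Fact.out : 1 ≤ r)).ne'
  have hN := NN_zero_one_pos (𝕜 := 𝕜) hr0 hr
  obtain ⟨s, hs⟩ := summable_iff_vanishing_norm.1 ha ((ε / NN r (0 : 𝕜) 1) ^ 2) (by positivity)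
  refine ⟨s, fun t ht => ?_⟩
  have h := hs t ht
  rw [Real.norm_of_nonneg (Finset.sum_nonneg fun _ _ => sq_nonneg _)] at h
  rw [norm_sum_zet, ← lt_div_iff₀ hN]
  exact (Real.sqrt_lt' (by positivity)).2 h

lemma norm_tsum_zet [Fact (1 ≤ r)] (hr : r ≠ ∞) {a : ℕ → 𝕜} (ha : Summable (fun n => ‖a n‖ ^ 2))
    (c : 𝕜) : ‖(c • one 𝕜 r + ∑' n, a n • zet hZ hr n : X 𝕜 r)‖ = NN r c √(∑' n, ‖a n‖ ^ 2) := by
  have h1 : Filter.Tendsto (fun F : Finset ℕ => ‖(c • one 𝕜 r + ∑ n ∈ F, a n • zet hZ hr n : X 𝕜 r)‖)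
      Filter.atTop (nhds ‖(c • one 𝕜 r + ∑' n, a n • zet hZ hr n : X 𝕜 r)‖) :=
    ((summable_zet hZ hr ha).hasSum.const_add (c • one 𝕜 r)).norm
  have h2 : Filter.Tendsto (fun F : Finset ℕ =>
      ‖(c • one 𝕜 r + ((√(∑ n ∈ F, ‖a n‖ ^ 2) : ℝ) : 𝕜) • zet hZ hr 0 : X 𝕜 r)‖)
      Filter.atTop (nhds ‖(c • one 𝕜 r + ((√(∑' n, ‖a n‖ ^ 2) : ℝ) : 𝕜) • zet hZ hr 0 : X 𝕜 r)‖) := by
    have h3 : Filter.Tendsto (fun F : Finset ℕ => √(∑ n ∈ F, ‖a n‖ ^ 2)) Filter.atTop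
        (nhds √(∑' n, ‖a n‖ ^ 2)) := (Real.continuous_sqrt.tendsto _).comp ha.hasSum
    have h4 : Filter.Tendsto (fun F : Finset ℕ => ((√(∑ n ∈ F, ‖a n‖ ^ 2) : ℝ) : 𝕜)) Filter.atTop
        (nhds ((√(∑' n, ‖a n‖ ^ 2) : ℝ) : 𝕜)) := (RCLike.continuous_ofReal.tendsto _).comp h3
    exact ((h4.smul_const (zet hZ hr 0)).const_add (c • one 𝕜 r)).norm
  have h5 : (fun F : Finset ℕ => ‖(c • one 𝕜 r + ∑ n ∈ F, a n • zet hZ hr n : X 𝕜 r)‖) =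
      (fun F : Finset ℕ =>
      ‖(c • one 𝕜 r + ((√(∑ n ∈ F, ‖a n‖ ^ 2) : ℝ) : 𝕜) • zet hZ hr 0 : X 𝕜 r)‖) := by
    funext F
    rw [norm_lin, norm_lin_real, abs_of_nonneg (Real.sqrt_nonneg _)]
  rw [h5] at h1
  rw [tendsto_nhds_unique h1 h2, norm_lin_real, abs_of_nonneg (Real.sqrt_nonneg _)]

/-- Bound for `N`. -/
lemma NN_le [Fact (1 ≤ r)] (c : 𝕜) {s : ℝ} (hr : r ≠ ∞) (hs : 0 ≤ s) :
    NN r c s ≤ ‖c‖ * ‖one 𝕜 r‖ + s * NN r (0 : 𝕜) 1 := by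
  obtain ⟨Z, hZ⟩ := exists_gaussSeq 𝕜
  have h := norm_lin_real hZ hr c s 0
  rw [abs_of_nonneg hs] at h
  rw [← h]
  refine (norm_add_le _ _).trans ?_
  rw [norm_smul, norm_smul, norm_zet, RCLike.norm_ofReal, abs_of_nonneg hs]

/-- weights -/
structure IsWeight (w : ℕ → ℝ) (C : ℝ) (sh : ℕ → ℕ) : Prop where
  nonneg : ∀ n, 0 ≤ w n
  le : ∀ n, w n ≤ C
  inj : Function.Injective sh

lemma IsWeight.C_nonneg {w : ℕ → ℝ} {C : ℝ} {sh : ℕ → ℕ} (h : IsWeight w C sh) : 0 ≤ C :=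
  (h.nonneg 0).trans (h.le 0)

lemma IsWeight.term_le {w : ℕ → ℝ} {C : ℝ} {sh : ℕ → ℕ} (h : IsWeight w C sh) (b : Ell 𝕜) (n : ℕ) :
    ‖((w n : ℝ) : 𝕜) * b (sh n)‖ ^ 2 ≤ C ^ 2 * ‖b (sh n)‖ ^ 2 := by
  rw [norm_mul, RCLike.norm_ofReal, abs_of_nonneg (h.nonneg n), mul_pow]
  have := h.nonneg n
  have := h.le n
  gcongr

lemma IsWeight.summable {w : ℕ → ℝ} {C : ℝ} {sh : ℕ → ℕ} (h : IsWeight w C sh) (b : Ell 𝕜) :
    Summable (fun n => ‖((w n : ℝ) : 𝕜) * b (sh n)‖ ^ 2) := by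
  refine Summable.of_nonneg_of_le (fun n => by positivity) (h.term_le b) ?_
  exact ((hasSum_sq b).summable.comp_injective h.inj).mul_left _

lemma IsWeight.tsum_le {w : ℕ → ℝ} {C : ℝ} {sh : ℕ → ℕ} (h : IsWeight w C sh) (b : Ell 𝕜) :
    ∑' n, ‖((w n : ℝ) : 𝕜) * b (sh n)‖ ^ 2 ≤ C ^ 2 * ‖b‖ ^ 2 := by
  have h1 : Summable (fun n => ‖b (sh n)‖ ^ 2) := (hasSum_sq b).summable.comp_injective h.inj
  calc ∑' n, ‖((w n : ℝ) : 𝕜) * b (sh n)‖ ^ 2 ≤ ∑' n, C ^ 2 * ‖b (sh n)‖ ^ 2 :=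
        (h.summable b).tsum_le_tsum (h.term_le b) (h1.mul_left _)
    _ = C ^ 2 * ∑' n, ‖b (sh n)‖ ^ 2 := tsum_mul_left
    _ ≤ C ^ 2 * ‖b‖ ^ 2 := by
        rw [← (hasSum_sq b).tsum_eq]
        exact mul_le_mul_of_nonneg_left
          (tsum_comp_le_tsum_of_inj (hasSum_sq b).summable (fun n => by positivity) h.inj)
          (sq_nonneg C)

/-- The operator `b ↦ k b₀ + ∑ w_n b_{sh n} g_n`. -/
noncomputable def Rop [Fact (1 ≤ r)] (hr : r ≠ ∞) (k : 𝕜) {w : ℕ → ℝ} {C : ℝ} {sh : ℕ → ℕ}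
    (h : IsWeight w C sh) : Ell 𝕜 →L[𝕜] X 𝕜 r :=
  LinearMap.mkContinuous
    { toFun := fun b => (k * b 0) • one 𝕜 r + ∑' n, (((w n : ℝ) : 𝕜) * b (sh n)) • zet hZ hr n
      map_add' := by
        intro b b'
        have h1 := summable_zet hZ hr (h.summable b)
        have h2 := summable_zet hZ hr (h.summable b')
        have h3 : ∀ n, (((w n : ℝ) : 𝕜) * (b + b') (sh n)) • zet hZ hr n =
            (((w n : ℝ) : 𝕜) * b (sh n)) • zet hZ hr n +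
            (((w n : ℝ) : 𝕜) * b' (sh n)) • zet hZ hr n := by
          intro n
          rw [lp.coeFn_add, Pi.add_apply, mul_add, add_smul]
        simp only [h3]
        rw [h1.tsum_add h2, lp.coeFn_add, Pi.add_apply, mul_add, add_smul]
        abel
      map_smul' := by
        intro t b
        have h3 : ∀ n, (((w n : ℝ) : 𝕜) * (t • b) (sh n)) • zet hZ hr n =
            t • ((((w n : ℝ) : 𝕜) * b (sh n)) • zet hZ hr n) := by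
          intro n
          rw [lp.coeFn_smul, Pi.smul_apply, smul_smul, smul_eq_mul]
          ring_nf
        simp only [h3]
        rw [tsum_const_smul'', lp.coeFn_smul, Pi.smul_apply, smul_add, smul_smul, smul_eq_mul,
          RingHom.id_apply]
        ring_nf }
    (‖k‖ * ‖one 𝕜 r‖ + C * NN r (0 : 𝕜) 1) (by
      intro b
      change ‖(k * b 0) • one 𝕜 r + ∑' n, (((w n : ℝ) : 𝕜) * b (sh n)) • zet hZ hr n‖ ≤ _
      rw [norm_tsum_zet hZ hr (h.summable b)]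
      refine (NN_le _ hr (Real.sqrt_nonneg _)).trans ?_
      have h1 : ‖b 0‖ ≤ ‖b‖ := lp.norm_apply_le_norm two_ne_zero b 0
      have h2 : √(∑' n, ‖((w n : ℝ) : 𝕜) * b (sh n)‖ ^ 2) ≤ C * ‖b‖ := by
        apply Real.sqrt_le_iff.2
        refine ⟨mul_nonneg h.C_nonneg (norm_nonneg _), ?_⟩
        rw [mul_pow]
        exact h.tsum_le b
      have h3 : 0 ≤ NN r (0 : 𝕜) 1 := ENNReal.toReal_nonneg
      rw [norm_mul]
      calc ‖k‖ * ‖b 0‖ * ‖one 𝕜 r‖ + √(∑' n, ‖((w n : ℝ) : 𝕜) * b (sh n)‖ ^ 2) * NN r (0 : 𝕜) 1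
          ≤ ‖k‖ * ‖b‖ * ‖one 𝕜 r‖ + (C * ‖b‖) * NN r (0 : 𝕜) 1 := by gcongr
        _ = _ := by ring)

lemma norm_Rop [Fact (1 ≤ r)] (hr : r ≠ ∞) (k : 𝕜) {w : ℕ → ℝ} {C : ℝ} {sh : ℕ → ℕ}
    (h : IsWeight w C sh) (b : Ell 𝕜) :
    ‖Rop hZ hr k h b‖ = NN r (k * b 0) √(∑' n, ‖((w n : ℝ) : 𝕜) * b (sh n)‖ ^ 2) := by
  rw [← norm_tsum_zet hZ hr (h.summable b)]
  rfl

end Pool.Agent.V5helper27.WM
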