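import Pool.Agent.V5helper27.WM.Key2

open MeasureTheory ProbabilityTheory unitInterval Measure
open scoped ENNReal NNReal RealInnerProductSpace

namespace Pool.Agent.V5helper27.WM

variable {𝕜 : Type*} [RCLike 𝕜]

variable {Z : ℕ → I → 𝕜} (hZ : IsGaussSeq Z) {r : ℝ≥0∞}

lemma NN_smul (c : 𝕜) (s a : ℝ) : NN r ((a : 𝕜) * c) (a * s) = |a| * NN r c s := by
  unfold NN
  have h : (fun z : 𝕜 => (a : 𝕜) * c + ((a * s : ℝ) : 𝕜) * z) =
      (a : 𝕜) • (fun z : 𝕜 => c + (s : 𝕜) * z) := by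
    funext z
    simp only [Pi.smul_apply, smul_eq_mul]
    push_cast
    ring
  rw [h, eLpNorm_const_smul, ENNReal.toReal_mul]
  simp

lemma norm_zet (hr : r ≠ ∞) (n : ℕ) : ‖zet hZ hr n‖ = NN r (0 : 𝕜) 1 := by
  have h := norm_lin_one hZ hr 0 1 n
  rw [zero_smul, zero_add, one_smul, norm_one] at h
  exact h

include hZ in
lemma NN_strictMono [Fact (1 ≤ r)] (h1 : 1 < r) (hr : r ≠ ∞) (c : 𝕜) {s t : ℝ} (hs : 0 ≤ s)
    (hst : s < t) : NN r c s < NN r c t := by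
  have ht : 0 < t := hs.trans_lt hst
  have hr0 : r ≠ 0 := (lt_trans zero_lt_one h1).ne'
  set x : X 𝕜 r := c • one 𝕜 r + (t : 𝕜) • zet hZ hr 0 with hx
  set y : X 𝕜 r := c • one 𝕜 r + ((-t : ℝ) : 𝕜) • zet hZ hr 0 with hy
  have nx : ‖x‖ = NN r c t := by rw [hx, norm_lin_real, abs_of_pos ht]
  have ny : ‖y‖ = NN r c t := by rw [hy, norm_lin_real, abs_neg, abs_of_pos ht]
  have hxy : x ≠ y := by
    intro h
    rw [hx, hy] at h
    replace h := add_left_cancel h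
    have h2 : ((2 * t : ℝ) : 𝕜) • zet hZ hr 0 = 0 := by
      have e : ((2 * t : ℝ) : 𝕜) = (t : 𝕜) - ((-t : ℝ) : 𝕜) := by push_cast; ring
      rw [e, sub_smul, h, sub_self]
    have h3 : zet hZ hr 0 = 0 := by
      rcases smul_eq_zero.1 h2 with h4 | h4
      · rw [RCLike.ofReal_eq_zero] at h4
        linarith
      · exact h4
    have h5 := NN_zero_one_pos (𝕜 := 𝕜) hr0 hr
    rw [← norm_zet hZ hr 0, h3, norm_zero] at h5
    exact lt_irrefl _ h5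
  have ha : 0 < (1 + s / t) / 2 := by positivity
  have hb : 0 < (1 - s / t) / 2 := by
    have : s / t < 1 := (div_lt_one ht).2 hst
    linarith
  have h := Lp_combo_lt h1 hr nx.le ny.le hxy ha hb (by ring)
  have e : ((1 + s / t) / 2) • x + ((1 - s / t) / 2) • y =
      c • one 𝕜 r + (s : 𝕜) • zet hZ hr 0 := by
    rw [hx, hy, RCLike.real_smul_eq_coe_smul (K := 𝕜), RCLike.real_smul_eq_coe_smul (K := 𝕜)]
    have e1 : (((1 + s / t) / 2 : ℝ) : 𝕜) + (((1 - s / t) / 2 : ℝ) : 𝕜) = 1 := by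
      rw [← RCLike.ofReal_add]
      have : (1 + s / t) / 2 + (1 - s / t) / 2 = 1 := by ring
      rw [this, RCLike.ofReal_one]
    have e2 : (((1 + s / t) / 2 : ℝ) : 𝕜) * (t : 𝕜) + (((1 - s / t) / 2 : ℝ) : 𝕜) * ((-t : ℝ) : 𝕜) =
        (s : 𝕜) := by
      rw [← RCLike.ofReal_mul, ← RCLike.ofReal_mul, ← RCLike.ofReal_add]
      congr 1
      field_simp
      ring
    calc (((1 + s / t) / 2 : ℝ) : 𝕜) • (c • one 𝕜 r + (t : 𝕜) • zet hZ hr 0) +
          (((1 - s / t) / 2 : ℝ) : 𝕜) • (c • one 𝕜 r + ((-t : ℝ) : 𝕜) • zet hZ hr 0)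
        = ((((1 + s / t) / 2 : ℝ) : 𝕜) + (((1 - s / t) / 2 : ℝ) : 𝕜)) • (c • one 𝕜 r) +
          ((((1 + s / t) / 2 : ℝ) : 𝕜) * (t : 𝕜) +
            (((1 - s / t) / 2 : ℝ) : 𝕜) * ((-t : ℝ) : 𝕜)) • zet hZ hr 0 := by module
      _ = _ := by rw [e1, e2, one_smul]
  rw [e, norm_lin_real, abs_of_nonneg hs] at h
  exact h

include hZ in
theorem exists_max [Fact (1 ≤ r)] (h2r : 2 < r) (hr : r ≠ ∞) {β : ℝ} (hβ0 : 0 < β)
    (hβ : β * NN r (0 : 𝕜) 1 = 1) :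
    ∃ s t : ℝ, 0 < s ∧ 0 ≤ t ∧ s ^ 2 + t ^ 2 = 1 ∧ 1 < NN r (s : 𝕜) (β * t) ∧
      ∀ s' t' : ℝ, 0 ≤ s' → 0 ≤ t' →
        NN r (s' : 𝕜) (β * t') ≤ NN r (s : 𝕜) (β * t) * √(s' ^ 2 + t' ^ 2) := by
  set K : Set (ℝ × ℝ) := {p | 0 ≤ p.1 ∧ 0 ≤ p.2 ∧ p.1 ^ 2 + p.2 ^ 2 = 1} with hK
  have hKclosed : IsClosed K := by
    apply (isClosed_le continuous_const continuous_fst).inter
    apply (isClosed_le continuous_const continuous_snd).inter
    exact isClosed_eq (by fun_prop) continuous_const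
  have hKsub : K ⊆ Set.Icc 0 1 ×ˢ Set.Icc 0 1 := by
    rintro ⟨a, b⟩ ⟨h1, h2, h3⟩
    simp only at h1 h2 h3
    refine ⟨⟨h1, ?_⟩, ⟨h2, ?_⟩⟩
    · simp only; nlinarith
    · simp only; nlinarith
  have hKc : IsCompact K := (isCompact_Icc.prod isCompact_Icc).of_isClosed_subset hKclosed hKsub
  have hKne : K.Nonempty := ⟨(1, 0), by simp [hK]⟩
  set f : ℝ × ℝ → ℝ := fun p =>
    ‖(((p.1 : ℝ) : 𝕜) • one 𝕜 r + ((β * p.2 : ℝ) : 𝕜) • zet hZ hr 0 : X 𝕜 r)‖ with hf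
  have hfc : Continuous f := by
    have c1 : Continuous (fun p : ℝ × ℝ => ((p.1 : ℝ) : 𝕜)) :=
      RCLike.continuous_ofReal.comp continuous_fst
    have c0 : Continuous (fun p : ℝ × ℝ => β * p.2) := by fun_prop
    have c2 : Continuous (fun p : ℝ × ℝ => ((β * p.2 : ℝ) : 𝕜)) :=
      RCLike.continuous_ofReal.comp c0
    exact ((c1.smul continuous_const).add (c2.smul continuous_const)).norm
  have hfN : ∀ a b : ℝ, 0 ≤ b → f (a, b) = NN r (a : 𝕜) (β * b) := by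
    intro a b hb
    rw [hf]
    simp only
    rw [norm_lin_real, abs_of_nonneg (by positivity)]
  obtain ⟨⟨s, t⟩, hst, hmax⟩ := hKc.exists_isMaxOn hKne hfc.continuousOn
  obtain ⟨hs, ht, h1⟩ := hst
  simp only at hs ht h1
  have hN : ∀ s' t' : ℝ, 0 ≤ s' → 0 ≤ t' →
        NN r (s' : 𝕜) (β * t') ≤ NN r (s : 𝕜) (β * t) * √(s' ^ 2 + t' ^ 2) := by
    intro s' t' hs' ht'
    by_cases h0 : s' ^ 2 + t' ^ 2 = 0
    · have hs0 : s' = 0 := by nlinarith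
      have ht0 : t' = 0 := by nlinarith
      rw [hs0, ht0, RCLike.ofReal_zero, NN_zero]
      simp
    · have hpos : 0 < s' ^ 2 + t' ^ 2 := lt_of_le_of_ne (by positivity) (Ne.symm h0)
      set ρ := √(s' ^ 2 + t' ^ 2) with hρ
      have hρ0 : 0 < ρ := Real.sqrt_pos.2 hpos
      have hρ2 : ρ ^ 2 = s' ^ 2 + t' ^ 2 := Real.sq_sqrt hpos.le
      have hmem : (s' / ρ, t' / ρ) ∈ K := by
        refine ⟨by positivity, by positivity, ?_⟩
        simp only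
        field_simp
        exact hρ2.symm
      have h2 : f (s' / ρ, t' / ρ) ≤ f (s, t) := hmax hmem
      rw [hfN _ _ (by positivity), hfN _ _ ht] at h2
      have h3 := NN_smul (r := r) (((s' / ρ : ℝ)) : 𝕜) (β * (t' / ρ)) ρ
      have e1 : (ρ : 𝕜) * (((s' / ρ : ℝ)) : 𝕜) = (s' : 𝕜) := by
        rw [← RCLike.ofReal_mul]
        congr 1
        field_simp
      have e2 : ρ * (β * (t' / ρ)) = β * t' := by field_simp
      rw [e1, e2, abs_of_pos hρ0] at h3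
      rw [h3, mul_comm]
      gcongr
  have hgt : 1 < NN r (s : 𝕜) (β * t) := by
    obtain ⟨s', hs', hlt⟩ := exists_NN_gt hZ h2r hr hβ
    have h2 := hN s' 1 hs' zero_le_one
    rw [mul_one, one_pow] at h2
    have h3 : 0 < √(s' ^ 2 + 1) := Real.sqrt_pos.2 (by positivity)
    by_contra hcon
    rw [not_lt] at hcon
    have h4 : NN r (s : 𝕜) (β * t) * √(s' ^ 2 + 1) ≤ 1 * √(s' ^ 2 + 1) := by gcongr
    linarith
  have hs0 : s ≠ 0 := by
    rintro rfl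
    have ht1 : t = 1 := by nlinarith
    rw [ht1, mul_one, RCLike.ofReal_zero, NN_zero, abs_of_pos hβ0, hβ] at hgt
    exact lt_irrefl _ hgt
  exact ⟨s, t, lt_of_le_of_ne hs (Ne.symm hs0), ht, h1, hgt, hN⟩

end Pool.Agent.V5helper27.WM
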